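import Pool.Agent.Lib_helper17.CR.DefsF

/-!
# Cyclic extensions of holomorph type
-/

set_option autoImplicit false
set_option linter.unusedSectionVars false

namespace Pool.Agent.HM

open NumberField IsDedekindDomain

/-- The extension `K/F` is of holomorph type: for some multiple `M` of `[K : F]` the group
`(ℤ/M)ˣ` acts on the field `K` by automorphisms `θ a` such that `θ a ∘ σ = σ ^ a ∘ θ a` for all
`σ ∈ Gal(K/F)`, and `θ a` belongs to `Gal(K/F)` only for `a = 1` (this is automatic if `K/F` is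
cyclic and `M = [K : F]`). -/
def HolM (F K : Type) [Field F] [Field K] [Algebra F K] : Prop :=
  ∃ (M : ℕ) (θ : (ZMod M)ˣ →* (K ≃+* K)), 0 < M ∧ Module.finrank F K ∣ M ∧
    (∀ (a : (ZMod M)ˣ) (σ : K ≃ₐ[F] K) (x : K), θ a (σ x) = (σ ^ (a : ZMod M).val) (θ a x)) ∧
    ∀ (a : (ZMod M)ˣ) (σ : K ≃ₐ[F] K), (∀ x, θ a x = σ x) → a = 1

/-- `H` is Galois over a number field `F₀ ⊆ F` and `Gal(H/F₀)` is isomorphic to a product of
symmetric groups. -/
def SymP (F H : Type) [Field F] [NumberField F] [Field H] [NumberField H] [Algebra F H] : Prop :=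
  ∃ (F₀ : Type) (_ : Field F₀) (_ : NumberField F₀) (_ : Algebra F₀ F)
    (_ : Algebra F₀ H) (_ : IsScalarTower F₀ F H) (_ : IsGalois F₀ H) (k : ℕ) (n : Fin k → ℕ),
    Nonempty ((H ≃ₐ[F₀] H) ≃* ((i : Fin k) → Equiv.Perm (Fin (n i))))

end Pool.Agent.HM
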