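import Pool.Agent.Lib_helper17.HM.Defs
import Pool.Agent.Lib_helper29.SY.P_FS
import Pool.Agent.Lib_helper17.CRF.T_FA1

/-!
# Abelian subgroups of products of symmetric groups
-/

set_option autoImplicit false
set_option linter.unusedSectionVars false

namespace Pool.Agent.HM

open Pool.Agent.RSK Pool.Agent.RS2 Pool.Agent.RS3 Pool.Agent.RT Pool.Agent.SY Pool.Agent.CR
open NumberField IsDedekindDomain

/-- the power maps of an abelian permutation group are conjugations by permutations -/
theorem sym_pow {X B : Type} [Fintype X] [CommGroup B] [Finite B] (f : B →* Equiv.Perm X) {a : ℕ}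
    (ha : a.Coprime (Nat.card B)) :
    ∃ c : Equiv.Perm X, ∀ b : B, c * f b = f b ^ a * c := by
  classical
  let act : MulAction B X := MulAction.compHom X f
  have hact : ∀ (b : B) (x : X), b • x = f b x := fun _ _ => rfl
  -- the orbit representative
  let rep : X → X := fun x => (Quotient.out (Quotient.mk (MulAction.orbitRel B X) x))
  have hrep : ∀ x, ∃ b : B, b • rep x = x := by
    intro x
    have h1 : (MulAction.orbitRel B X).r (rep x) x := Quotient.mk_out (s := MulAction.orbitRel B X) x
    have h2 : rep x ∈ MulAction.orbit B x := h1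
    obtain ⟨b, hb⟩ := h2
    refine ⟨b⁻¹, ?_⟩
    rw [← hb]
    exact inv_smul_smul b x
  have hrep2 : ∀ (b : B) (x : X), rep (b • x) = rep x := by
    intro b x
    have : (Quotient.mk (MulAction.orbitRel B X) (b • x)) =
        Quotient.mk (MulAction.orbitRel B X) x := Quotient.sound (MulAction.mem_orbit x b)
    exact congrArg Quotient.out this
  choose g hg using hrep
  -- well-definedness
  have key : ∀ (b b' : B) (x : X), b • x = b' • x → b ^ a • x = b' ^ a • x := by
    intro b b' x h
    have h1 : b⁻¹ * b' ∈ MulAction.stabilizer B x := by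
      rw [MulAction.mem_stabilizer_iff, mul_smul, ← h, inv_smul_smul]
    have h2 := (MulAction.stabilizer B x).pow_mem h1 a
    rw [MulAction.mem_stabilizer_iff, mul_pow, mul_smul, inv_pow, inv_smul_eq_iff] at h2
    exact h2.symm
  have key2 : ∀ (b b' : B) (x : X), b ^ a • x = b' ^ a • x → b • x = b' • x := by
    intro b b' x h
    have h1 : (b⁻¹ * b') ^ a ∈ MulAction.stabilizer B x := by
      rw [MulAction.mem_stabilizer_iff, mul_pow, mul_smul, ← h, inv_pow, inv_smul_smul]
    have h2 : b⁻¹ * b' ∈ MulAction.stabilizer B x := by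
      have h3 : a.Coprime (orderOf (b⁻¹ * b')) := ha.coprime_dvd_right (orderOf_dvd_natCard _)
      obtain ⟨c, hc⟩ := exists_pow_eq_self_of_coprime h3
      rw [← hc]
      exact (MulAction.stabilizer B x).pow_mem h1 c
    rw [MulAction.mem_stabilizer_iff, mul_smul, inv_smul_eq_iff] at h2
    exact h2.symm
  let c₀ : X → X := fun x => g x ^ a • rep x
  have hc₀ : ∀ (b : B) (x : X), c₀ (b • x) = b ^ a • c₀ x := by
    intro b x
    show g (b • x) ^ a • rep (b • x) = b ^ a • g x ^ a • rep x
    rw [hrep2, ← mul_smul, ← mul_pow]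
    apply key
    have h1 := hg (b • x)
    rw [hrep2] at h1
    rw [h1, mul_smul, hg x]
  have hr : ∀ x, rep (c₀ x) = rep x := by
    intro x
    show rep (g x ^ a • rep x) = rep x
    rw [hrep2]
    have h1 := hg x
    conv_rhs => rw [← h1]
    rw [hrep2]
  have hinj : Function.Injective c₀ := by
    intro x y h
    have h1 : rep x = rep y := by rw [← hr x, h, hr y]
    have h2 : g x ^ a • rep x = g y ^ a • rep x := by
      have : g x ^ a • rep x = g y ^ a • rep y := h
      rw [this, h1]
    have h3 := key2 _ _ _ h2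
    rw [hg x, h1, hg y] at h3
    exact h3
  let c : Equiv.Perm X := Equiv.ofBijective c₀ (Finite.injective_iff_bijective.1 hinj)
  refine ⟨c, fun b => ?_⟩
  ext x
  have h1 : c (f b x) = f (b ^ a) (c x) := hc₀ b x
  rw [map_pow] at h1
  rw [Equiv.Perm.mul_apply, Equiv.Perm.mul_apply, h1]

section

variable {F H : Type} [Field F] [NumberField F] [Field H] [NumberField H] [Algebra F H]
  [IsGalois F H] {G : Type} [CommGroup G] [Fintype G] {ι : G ≃* (H ≃ₐ[F] H)}

theorem symP_T (h : SymP F H) : SymT F H := by
  obtain ⟨F₀, _, _, _, _, _, _, k, n, e⟩ := h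
  exact ⟨F₀, H, inferInstance, inferInstance, inferInstance, inferInstance, inferInstance,
    inferInstance, inferInstance, Algebra.id H, inferInstance, inferInstance, inferInstance, k, n, e⟩

theorem aut_symP (h : SymP F H) (N : Subgroup G) (q : ℕ) : AutAt q F (Kf ι N) := by
  obtain ⟨F₀, _, _, _, _, _, _, k, n, ⟨e⟩⟩ := h
  refine fa1_core (M := Nat.card (H ≃ₐ[F] H)) Nat.card_pos (fun b hb => ?_) N q
  have hbG : b.Coprime (Nat.card G) := by
    rw [Nat.card_congr ι.toEquiv]
    exact hb
  let j : G →* (H ≃ₐ[F₀] H) := rst F₀ ι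
  have hj : ∀ (g : G) (x : H), j g x = ι g x := fun _ _ => rfl
  have h1 : ∀ i, ∃ c : Equiv.Perm (Fin (n i)), ∀ g : G,
      c * e (j g) i = e (j g) i ^ b * c := fun i =>
    sym_pow (((Pi.evalMonoidHom (fun i => Equiv.Perm (Fin (n i))) i).comp e.toMonoidHom).comp j)
      hbG
  choose c hc using h1
  have h2 : ∀ g : G, e.symm c * j g = j g ^ b * e.symm c := by
    intro g
    apply e.injective
    rw [map_mul, map_mul, map_pow, e.apply_symm_apply]
    exact funext fun i => hc i g
  refine ⟨(e.symm c).toRingEquiv, fun t x => ?_⟩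
  obtain ⟨g, rfl⟩ := ι.surjective t
  have h3 := DFunLike.congr_fun (h2 g) x
  rw [AlgEquiv.mul_apply, AlgEquiv.mul_apply, hj, ← map_pow, hj, map_pow] at h3
  exact h3

end

end Pool.Agent.HM
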