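import Pool.Agent.Lib_helper17.HM.Lay
import Pool.Agent.Lib_helper17.HM.Sym
import Pool.Agent.Lib_helper35.RS2.P_CB
import Pool.Agent.Lib_helper29.SY.P_FP
import Pool.Agent.Lib_helper29.SY.P_FK

/-!
# The earlier families satisfy the condition
-/

set_option autoImplicit false
set_option linter.unusedSectionVars false

namespace Pool.Agent.HM

open Pool.Agent.RSK Pool.Agent.RS2 Pool.Agent.RS3 Pool.Agent.RT Pool.Agent.SY Pool.Agent.CR
open NumberField IsDedekindDomain

section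

variable {F H : Type} [Field F] [NumberField F] [Field H] [NumberField H] [Algebra F H]
  [IsGalois F H] {G : Type} [CommGroup G] [Fintype G] {ι : G ≃* (H ≃ₐ[F] H)}

/-- restriction of automorphisms which act on `Gal(H/F)` by power maps -/
theorem res_stab {τ : H ≃+* H} {b : ℕ} (hb : ∀ g : H ≃ₐ[F] H, b.Coprime (orderOf g))
    (hτ : ∀ (t : H ≃ₐ[F] H) (x : H), τ (t x) = (t ^ b) (τ x)) (N : Subgroup G) (x : H)
    (hx : x ∈ Kf ι N) : τ x ∈ Kf ι N := by
  have hm : ∀ x : H, x ∈ Kf ι N ↔ ∀ g ∈ N.map ι.toMonoidHom, g x = x := by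
    intro x
    exact IntermediateField.mem_fixedField_iff _ _
  rw [hm] at hx ⊢
  intro g hg
  obtain ⟨c, hc'⟩ : ∃ c : ℕ, g ^ (c * b) = g := by
    obtain ⟨c, hc⟩ := exists_pow_eq_self_of_coprime (hb g)
    exact ⟨c, by rw [mul_comm, pow_mul, hc]⟩
  have h3 := hτ (g ^ c) x
  rw [hx (g ^ c) ((N.map ι.toMonoidHom).pow_mem hg c), ← pow_mul, hc'] at h3
  exact h3.symm

/-- the family `HolT` -/
theorem holT_M (ι : G ≃* (H ≃ₐ[F] H)) (h : HolT F H) (N : Subgroup G) (hN : IsCyclic (G ⧸ N)) :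
    HolM F (Kf ι N) := by
  obtain ⟨F₀, _, _, _, _, _, _, m, θ, hm, hs, hθ, -, htriv⟩ := h
  have := kf_galois ι N
  have : NeZero m := ⟨hm.ne'⟩
  have hcop : ∀ (a : (ZMod m)ˣ) (g : H ≃ₐ[F] H), ((a : ZMod m).val).Coprime (orderOf g) :=
    fun a g => (ZMod.val_coe_unit_coprime a).coprime_dvd_right (orderOf_dvd_of_pow_eq_one (hs g))
  have hst : ∀ (a : (ZMod m)ˣ) (x : H), x ∈ Kf ι N → θ a x ∈ Kf ι N := fun a x hx =>
    res_stab (τ := (θ a).toRingEquiv) (hcop a) (hθ a) N x hx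
  let res : (ZMod m)ˣ → (Kf ι N ≃+* Kf ι N) := fun a =>
    { toFun := fun x => ⟨θ a x, hst a x x.2⟩
      invFun := fun y => ⟨θ a⁻¹ y, hst a⁻¹ y y.2⟩
      left_inv := fun x => Subtype.ext (by
        show θ a⁻¹ (θ a x) = x
        rw [← AlgEquiv.mul_apply, ← map_mul, inv_mul_cancel, map_one, AlgEquiv.one_apply])
      right_inv := fun x => Subtype.ext (by
        show θ a (θ a⁻¹ x) = x
        rw [← AlgEquiv.mul_apply, ← map_mul, mul_inv_cancel, map_one, AlgEquiv.one_apply])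
      map_mul' := fun x y => Subtype.ext (map_mul (θ a) (x : H) y)
      map_add' := fun x y => Subtype.ext (map_add (θ a) (x : H) y) }
  let θK : (ZMod m)ˣ →* (Kf ι N ≃+* Kf ι N) :=
    { toFun := res
      map_one' := by
        ext x
        show θ 1 (x : H) = x
        rw [map_one, AlgEquiv.one_apply]
      map_mul' := fun a b => by
        ext x
        show θ (a * b) (x : H) = θ a (θ b x)
        rw [map_mul, AlgEquiv.mul_apply] }
  have hθK : ∀ (a : (ZMod m)ˣ) (x : Kf ι N), ((θK a x : Kf ι N) : H) = θ a (x : H) :=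
    fun _ _ => rfl
  have hl : ∀ (σ : Kf ι N ≃ₐ[F] Kf ι N) (y : Kf ι N),
      (σ.liftNormal H) (y : H) = ((σ y : Kf ι N) : H) := fun σ y =>
    AlgEquiv.liftNormal_commutes σ H y
  have hk : ∀ (σ : Kf ι N ≃ₐ[F] Kf ι N) (k : ℕ) (y : Kf ι N),
      ((σ.liftNormal H) ^ k) (y : H) = (((σ ^ k) y : Kf ι N) : H) := by
    intro σ k
    induction k with
    | zero => intro y; rfl
    | succ k ih =>
      intro y
      rw [pow_succ, AlgEquiv.mul_apply, hl, ih, pow_succ, AlgEquiv.mul_apply]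
  refine ⟨m, θK, hm, ?_, ?_, ?_⟩
  · -- `[K : F]` divides `m`
    obtain ⟨ι', -⟩ := kf_quo ι N
    obtain ⟨g, hg⟩ := hN.exists_generator
    have h1 : Module.finrank F (Kf ι N) = orderOf g := by
      rw [kf_finrank (ι := ι) N, orderOf_eq_card_of_forall_mem_zpowers hg]
      rfl
    rw [h1]
    apply orderOf_dvd_of_pow_eq_one
    obtain ⟨x, rfl⟩ := QuotientGroup.mk_surjective g
    rw [← QuotientGroup.mk_pow]
    have h2 : x ^ m = 1 := by
      apply ι.injective
      rw [map_pow, map_one, hs]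
    rw [h2]
    rfl
  · intro a σ x
    apply Subtype.ext
    rw [hθK, ← hk, hθK, ← hl, hθ]
  · intro a σ hσ
    have h1 : ∀ x : H, x ∈ Kf ι N → (σ.liftNormal H)⁻¹ (θ a x) = x := by
      intro x hx
      have h2 := congrArg (Subtype.val) (hσ ⟨x, hx⟩)
      rw [hθK, ← hl] at h2
      rw [show θ a x = σ.liftNormal H x from h2, ← AlgEquiv.mul_apply, inv_mul_cancel,
        AlgEquiv.one_apply]
    -- the automorphism `(σ.liftNormal H)⁻¹ * θ a` fixes `F`
    have h3 : ∀ y : F, ((AlgEquiv.restrictScalars F₀ (σ.liftNormal H)⁻¹) * θ a)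
        (algebraMap F H y) = algebraMap F H y := by
      intro y
      have h4 : algebraMap F H y ∈ Kf ι N := (Kf ι N).algebraMap_mem y
      exact h1 _ h4
    let t : H ≃ₐ[F] H := AlgEquiv.ofRingEquiv
      (f := ((AlgEquiv.restrictScalars F₀ (σ.liftNormal H)⁻¹) * θ a).toRingEquiv) h3
    have ht : ∀ x, t x = (σ.liftNormal H)⁻¹ (θ a x) := fun _ => rfl
    apply htriv a (σ.liftNormal H * t)
    intro x
    rw [AlgEquiv.mul_apply, ht, ← AlgEquiv.mul_apply, mul_inv_cancel, AlgEquiv.one_apply]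

/-- the family `KumN` -/
theorem kumN_M (ι : G ≃* (H ≃ₐ[F] H)) (h : KumN F H) (N : Subgroup G) (hN : IsCyclic (G ⧸ N)) :
    HolM F (Kf ι N) := holT_M ι (kum_holT h) N hN

end

section P

variable {F H : Type} [Field F] [NumberField F] [Field H] [NumberField H] [Algebra F H]
  [IsGalois F H] {G : Type} [CommGroup G] [Fintype G] {ι : G ≃* (H ≃ₐ[F] H)} {p j : ℕ}
  {P : Subgroup G}

/-- extensions of degree at most 2 -/
theorem holM_le {F K : Type} [Field F] [NumberField F] [Field K] [NumberField K] [Algebra F K]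
    (h : Module.finrank F K ≤ 2) : HolM F K := by
  have h0 : 0 < Module.finrank F K := Module.finrank_pos
  have h1 : Module.finrank F K = 1 ∨ Module.finrank F K = 2 := by omega
  have hdvd : Module.finrank F K ∣ 2 := by rcases h1 with h | h <;> rw [h]; norm_num
  have hu : ∀ a : (ZMod 2)ˣ, a = 1 := by decide
  refine ⟨2, 1, by norm_num, hdvd, fun a σ x => ?_, fun a _ _ => hu a⟩
  rw [hu a, MonoidHom.one_apply]
  have : ((1 : (ZMod 2)ˣ) : ZMod 2).val = 1 := by decide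
  rw [this, pow_one]
  rfl

/-- the case of the condition `Hol3` -/
theorem hol3_M (ι : G ≃* (H ≃ₐ[F] H)) (hC : CycP p j P) (hH : Hol3 p (p ^ j) F H) : HolM F H := by
  classical
  obtain ⟨g₀, hg⟩ := hC.cyc.exists_generator
  have hp := hC.prime
  have hfr : Module.finrank F H = p ^ j := by
    rw [← IsGalois.card_aut_eq_finrank F H, ← Nat.card_congr ι.toEquiv, hC.card]
  obtain ⟨m₁, θ₁, hdvd, h1, h2⟩ := hH
  have hjm₁ : j ≤ m₁ := (Nat.pow_dvd_pow_iff_le_right hp.one_lt).1 hdvd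
  rcases Nat.lt_or_ge (p ^ j) 3 with hpj | hpj
  · exact holM_le (by omega)
  · have hex : ∃ m, j ≤ m ∧ ∃ θ : (ZMod (p ^ m))ˣ →* RingAut H,
      (∀ (a : (ZMod (p ^ m))ˣ) (σ : H ≃ₐ[F] H),
        θ a * holR F H σ = holR F H σ ^ (a : ZMod (p ^ m)).val * θ a) ∧
      ∀ (a : (ZMod (p ^ m))ˣ) (σ : H ≃ₐ[F] H), θ a = holR F H σ → θ a = 1 := by
      refine ⟨m₁, hjm₁, θ₁, fun a σ => ?_, fun a σ h => ?_⟩
      · rw [← map_pow]
        ext x
        exact h1 a σ x
      · ext x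
        exact h2 a σ (fun x => DFunLike.congr_fun h x) x
    obtain ⟨hjm, θ, hconj, htriv⟩ := Nat.find_spec hex
    refine ⟨p ^ Nat.find hex, θ, pow_pos hp.pos _, ?_, fun a σ x => ?_, fun a σ h => ?_⟩
    · rw [hfr]
      exact pow_dvd_pow p hjm
    · have := hconj a σ
      rw [← map_pow] at this
      exact DFunLike.congr_fun this x
    · by_contra hne
      obtain ⟨q1, q2, q3⟩ := hol_desc ι hC hg hpj hjm θ hconj htriv
        (htriv a σ (RingEquiv.ext h)) hne
      exact Nat.find_min hex (m := Nat.find hex - 1) (by omega) ⟨q1, q3⟩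

theorem hol3_M' (ι : G ≃* (H ≃ₐ[F] H)) (N : Subgroup G) (hN : IsCyclic (G ⧸ N)) {p : ℕ}
    (hp : p.Prime) (hG : IsPGroup p G) (h : Hol3 p N.index F (Kf ι N)) : HolM F (Kf ι N) := by
  classical
  have := kf_galois ι N
  obtain ⟨ι', -⟩ := kf_quo ι N
  have : Fintype (G ⧸ N) := Fintype.ofFinite _
  haveI : Fact p.Prime := ⟨hp⟩
  obtain ⟨j, hj⟩ := hG.index N
  rcases Nat.eq_zero_or_pos j with h0 | h0
  · refine holM_le ?_
    rw [kf_finrank (ι := ι) N, hj, h0]
    norm_num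
  · obtain ⟨P', hC⟩ := fp_cycp hp h0 hN (hj : Nat.card (G ⧸ N) = p ^ j)
    exact hol3_M ι' hC (hj ▸ h)

end P

end Pool.Agent.HM
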