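import Pool.Agent.Lib_helper17.CR.DefsF
import Pool.Agent.Lib_helper17.CRF.E_EK
import Pool.Agent.Lib_helper17.HM.Fam

/-!
# Rubin's conjecture for extensions of holomorph type: assembly
-/

set_option autoImplicit false
set_option linter.unusedSectionVars false

namespace Pool.Agent.HM

open Pool.Agent Pool.Agent.RSK Pool.Agent.RS3 Pool.Agent.SY Pool.Agent.CR NumberField
  IsDedekindDomain

section

variable {F H : Type} [Field F] [NumberField F] [Field H] [NumberField H] [Algebra F H]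
  [IsGalois F H] {G : Type} [CommGroup G] [Fintype G]

/-- the extensions covered by the theorem -/
def HolAll (ι : G ≃* (H ≃ₐ[F] H)) : Prop :=
  (∀ N : Subgroup G, IsCyclic (G ⧸ N) → HolM F (Kf ι N)) ∨ SymP F H

theorem holAll_famQ (ι : G ≃* (H ≃ₐ[F] H)) (h : HolAll ι) : FamQ ι := by
  refine Or.inr (Or.inr (Or.inr (Or.inl fun N hN => ?_)))
  have := kf_galois ι N
  rcases h with h | h
  · exact ⟨fun _ => holM_lay ι N hN (h N hN), fun q _ => holM_aut (h N hN) q⟩
  · exact ⟨fun _ => sym_lay ι (symP_T h) N hN, fun q _ => aut_symP h N q⟩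

/-- the four families of the earlier theorem are covered -/
theorem holAll_of (ι : G ≃* (H ≃ₐ[F] H))
    (h : HolT F H ∨ KumN F H ∨ SymC F H ∨ ∃ p : ℕ, p.Prime ∧ IsPGroup p G ∧
      ∀ N : Subgroup G, IsCyclic (G ⧸ N) → Hol3 p N.index F (Kf ι N)) : HolAll ι := by
  rcases h with h | h | h | ⟨p, hp, hG, h⟩
  · exact Or.inl fun N hN => holT_M ι h N hN
  · exact Or.inl fun N hN => kumN_M ι h N hN
  · exact Or.inr h.2
  · exact Or.inl fun N hN => hol3_M' ι N hN hp hG (h N hN)

theorem fin (ι : G ≃* (H ≃ₐ[F] H)) (S T : Finset (HeightOneSpectrum (𝓞 F))) {r : ℕ}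
    (w : Fin r → Pl H) (fr : HeightOneSpectrum (𝓞 F) → G) (hD : Data ι S T r w fr)
    (h : HolAll ι) : CRF.RubinOn (admE ι S w) ι S T w fr :=
  CRF.rubinOn_of (betaE_fam ι S T w fr hD (holAll_famQ ι h))

end

end Pool.Agent.HM
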