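import Pool.Agent.Lib_helper17.HM.Defs
import Pool.Agent.Lib_helper29.SY.P_FH
import Pool.Agent.Lib_helper35.RS3.P_HOL
import Pool.Agent.Lib_helper17.RS.P_IF

/-!
# Cyclic extensions of holomorph type are permutation layers
-/

set_option autoImplicit false
set_option linter.unusedSectionVars false

namespace Pool.Agent.HM

open Pool.Agent.RSK Pool.Agent.RS2 Pool.Agent.RS3 Pool.Agent.RT Pool.Agent.SY
open NumberField IsDedekindDomain

section A

variable {F H : Type} [Field F] [NumberField F] [Field H] [NumberField H] [Algebra F H]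
  [IsGalois F H]

/-- the group of the `σ θ(a)` -/
def hmG {m : ℕ} (θ : (ZMod m)ˣ →* RingAut H)
    (hconj : ∀ (a : (ZMod m)ˣ) (σ : H ≃ₐ[F] H),
      θ a * holR F H σ = holR F H σ ^ (a : ZMod m).val * θ a) : Subgroup (RingAut H) where
  carrier := {γ | ∃ (σ : H ≃ₐ[F] H) (a : (ZMod m)ˣ), γ = holR F H σ * θ a}
  one_mem' := ⟨1, 1, by rw [map_one, map_one, one_mul]⟩
  mul_mem' := by
    rintro _ _ ⟨σ, a, rfl⟩ ⟨τ, b, rfl⟩
    refine ⟨σ * τ ^ (a : ZMod m).val, a * b, ?_⟩
    calc holR F H σ * θ a * (holR F H τ * θ b) = holR F H σ * (θ a * holR F H τ) * θ b := by group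
      _ = holR F H σ * (holR F H τ ^ (a : ZMod m).val * θ a) * θ b := by rw [hconj]
      _ = _ := by rw [map_mul, map_pow, map_mul]; group
  inv_mem' := by
    rintro _ ⟨σ, a, rfl⟩
    refine ⟨σ⁻¹ ^ ((a⁻¹ : (ZMod m)ˣ) : ZMod m).val, a⁻¹, ?_⟩
    rw [map_pow, ← hconj, mul_inv_rev, map_inv, map_inv]

theorem holM_T (h : HolM F H) : HolT F H := by
  obtain ⟨m, θ, hm, hdvd, hc, htriv'⟩ := h
  have hconj : ∀ (a : (ZMod m)ˣ) (σ : H ≃ₐ[F] H),
      θ a * holR F H σ = holR F H σ ^ (a : ZMod m).val * θ a := by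
    intro a σ
    rw [← map_pow]
    exact RingEquiv.ext fun x => hc a σ x
  have htriv : ∀ (a : (ZMod m)ˣ) (σ : H ≃ₐ[F] H), θ a = holR F H σ → a = 1 :=
    fun a σ h => htriv' a σ fun x => DFunLike.congr_fun h x
  have hexp : ∀ s : H ≃ₐ[F] H, s ^ m = 1 := by
    intro s
    rw [← orderOf_dvd_iff_pow_eq_one]
    refine dvd_trans ?_ hdvd
    rw [← IsGalois.card_aut_eq_finrank F H]
    exact orderOf_dvd_natCard _
  have hfinA : Finite (RingAut H) := holR_fin
  set Γ : Subgroup (RingAut H) := hmG θ hconj with hΓ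
  have hmemΓ : ∀ γ : RingAut H, γ ∈ Γ ↔ ∃ (σ : H ≃ₐ[F] H) (a : (ZMod m)ˣ),
      γ = holR F H σ * θ a := fun γ => Iff.rfl
  have hθΓ : ∀ a, θ a ∈ Γ := fun a => (hmemΓ _).2 ⟨1, a, by rw [map_one, one_mul]⟩
  have hσΓ : ∀ σ : H ≃ₐ[F] H, holR F H σ ∈ Γ := fun σ => (hmemΓ _).2 ⟨σ, 1, by
    rw [map_one, mul_one]⟩
  let F₀ : Subfield H := FixedPoints.subfield Γ H
  have memF : ∀ x : H, x ∈ F₀ ↔ ∀ γ ∈ Γ, γ x = x := fun x =>
    ⟨fun hx γ hγ => hx ⟨γ, hγ⟩, fun hx γ => hx γ.1 γ.2⟩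
  have hFR : F₀ ≤ (algebraMap F H).fieldRange := by
    intro x hx
    rw [RingHom.mem_fieldRange]
    have := (IsGalois.mem_range_algebraMap_iff_fixed (F := F) (E := H) x).mpr fun σ =>
      (memF x).mp hx _ (hσΓ σ)
    exact this
  let e : F ≃+* (algebraMap F H).fieldRange :=
    RingEquiv.ofBijective (algebraMap F H).rangeRestrictField
    ⟨fun a b hab => (algebraMap F H).injective (congrArg Subtype.val hab),
      fun y => by
        obtain ⟨x, hx⟩ := y.2
        exact ⟨x, Subtype.ext hx⟩⟩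
  have he : ∀ x, algebraMap F H (e.symm x) = x := fun x => by
    have h4 : (e (e.symm x)) = x := e.apply_symm_apply x
    exact congrArg Subtype.val h4
  let φ : F₀ →+* F := (e.symm : _ →+* F).comp (Subfield.inclusion hFR)
  have hφ : ∀ x : F₀, algebraMap F H (φ x) = x := fun x => he _
  let i1 : Algebra F₀ F := φ.toAlgebra
  have i3 : IsScalarTower F₀ F H := IsScalarTower.of_algebraMap_eq fun x => (hφ x).symm
  have i5 : IsGalois F₀ H := IsGalois.of_fixed_field H Γ
  have autF : ∀ γ : H ≃ₐ[F₀] H, ∃ g ∈ Γ, ∀ x, γ x = g x := by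
    intro γ
    obtain ⟨g, hg⟩ := (FixedPoints.toAlgAut_bijective Γ H).surjective γ
    exact ⟨g.1, g.2, fun x => (DFunLike.congr_fun hg x).symm⟩
  let θ' : (ZMod m)ˣ →* (H ≃ₐ[F₀] H) :=
    (MulSemiringAction.toAlgAut Γ F₀ H).comp (θ.codRestrict Γ hθΓ)
  have hθ' : ∀ a x, θ' a x = θ a x := fun a x => rfl
  refine ⟨F₀, inferInstance, NumberField.of_subfield F₀, i1, inferInstance, i3, i5, m, θ', hm,
    hexp, ?_, ?_, ?_⟩
  · intro a s x
    rw [hθ', hθ']
    exact hc a s x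
  · intro γ
    obtain ⟨g, hgΓ, hgx⟩ := autF γ
    obtain ⟨σ, a, rfl⟩ := (hmemΓ g).1 hgΓ
    exact ⟨σ, a, fun x => hgx x⟩
  · intro a s hx
    exact htriv' a s fun x => by rw [← hθ' a x, hx x]

/-- a cyclic extension with the condition `HolT` is a permutation layer -/
theorem holT_self {G : Type} [CommGroup G] [Fintype G] (ι : G ≃* (H ≃ₐ[F] H)) (hG : IsCyclic G)
    (h : HolT F H) : PermLay F H := by
  obtain ⟨F₀, _, _, _, _, _, _, m, θ, hm, hexp, hconj, hdec, htriv⟩ := h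
  obtain ⟨χ₀, hχ₀⟩ := fh_char hG
  set χ : (H ≃ₐ[F] H) →* ℂˣ := χ₀.comp ι.symm.toMonoidHom with hχ
  have hχi : Function.Injective χ := hχ₀.comp ι.symm.injective
  set π : G →* (H ≃ₐ[F] H) := ι.toMonoidHom with hπ
  have hj : Function.Injective (rst F₀ ι) := by
    intro a b hab
    apply ι.injective
    ext x
    exact congrArg (fun γ : H ≃ₐ[F₀] H => γ x) hab
  have hjx : ∀ (b : G) (x : H), rst F₀ ι b x = ι b x := fun _ _ => rfl
  obtain ⟨Y, Y', hY, hY', σ, σ', hσ⟩ := hol_mono (Γ := H ≃ₐ[F₀] H) (B := G) hm (rst F₀ ι) hj θ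
    (by
      intro a b
      ext x
      rw [AlgEquiv.mul_apply, AlgEquiv.mul_apply, hjx, hjx, hconj, map_pow]
      congr 1
      rw [← AlgEquiv.mul_apply, mul_inv_cancel, AlgEquiv.one_apply])
    (by
      intro γ
      obtain ⟨s, a, hs⟩ := hdec γ
      refine ⟨ι.symm s, a, ?_⟩
      ext x
      rw [AlgEquiv.mul_apply, hjx, MulEquiv.apply_symm_apply, hs])
    (by
      intro b a hba
      apply htriv a (ι b⁻¹)
      intro x
      have h1 : ι b (θ a x) = x := by
        have := congrArg (fun γ : H ≃ₐ[F₀] H => γ x) hba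
        exact this
      have h2 : ι b⁻¹ (ι b (θ a x)) = θ a x := by
        rw [← AlgEquiv.mul_apply, ← map_mul, inv_mul_cancel, map_one, AlgEquiv.one_apply]
      rw [← h2, h1])
    (by
      intro b
      apply ι.injective
      rw [map_pow, map_one]
      exact hexp (ι b))
    (χ.comp π)
  refine ⟨F₀, H, inferInstance, inferInstance, inferInstance, inferInstance, inferInstance,
    inferInstance, inferInstance, Algebra.id H, inferInstance, inferInstance, inferInstance,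
    Y, Y', hY, hY', σ, σ', χ, hχi, ?_⟩
  intro γ
  rw [hσ γ, add_sub_cancel_left]
  symm
  refine indK_eq (F₀ := F₀) (F := F) (K := H) (L := H) (rst F₀ ι) π hj ?_ ?_ ?_ χ γ
  · intro γ hγ
    refine ⟨ι.symm { γ.toRingEquiv with commutes' := hγ }, ?_⟩
    ext x
    rw [hjx, MulEquiv.apply_symm_apply]
    rfl
  · intro b x
    rw [hjx]
    exact (ι b).commutes x
  · intro b x
    rfl

end A

section B

variable {F H : Type} [Field F] [NumberField F] [Field H] [NumberField H] [Algebra F H]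
  [IsGalois F H] {G : Type} [CommGroup G] [Fintype G] (ι : G ≃* (H ≃ₐ[F] H))

theorem holM_lay (N : Subgroup G) (hN : IsCyclic (G ⧸ N)) (h : HolM F (Kf ι N)) :
    PermLay F (Kf ι N) := by
  have := kf_galois ι N
  obtain ⟨ι', -⟩ := kf_quo ι N
  have : Fintype (G ⧸ N) := Fintype.ofFinite _
  exact holT_self ι' hN (holM_T h)

end B

section C

variable {F K : Type} [Field F] [NumberField F] [Field K] [NumberField K] [Algebra F K]

theorem holM_aut [IsGalois F K] (h : HolM F K) (q : ℕ) : CR.AutAt q F K := by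
  obtain ⟨M, θ, hM, hdvd, hc, -⟩ := h
  intro a ha
  have : NeZero M := ⟨hM.ne'⟩
  obtain ⟨u, hu⟩ := ZMod.unitsMap_surjective hdvd (ZMod.unitOfCoprime a ha)
  refine ⟨0, (u : ZMod M).val, θ u, hc u, fun σ _ => ?_⟩
  have h1 := congrArg (fun x : (ZMod (Module.finrank F K))ˣ => (x : ZMod (Module.finrank F K))) hu
  have h2 : (((u : ZMod M).val : ℕ) : ZMod (Module.finrank F K)) = (a : ZMod _) := by
    have h3 : ((ZMod.unitsMap hdvd u : (ZMod (Module.finrank F K))ˣ) :
        ZMod (Module.finrank F K)) = (((u : ZMod M).val : ℕ) : ZMod (Module.finrank F K)) := by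
      rw [ZMod.unitsMap_val, ZMod.cast_eq_val]
    rw [← h3]
    exact h1.trans (ZMod.coe_unitOfCoprime a ha)
  rw [pow_zero, mul_one, pow_eq_pow_iff_modEq]
  have h4 : (u : ZMod M).val ≡ a [MOD Module.finrank F K] := by
    rw [← ZMod.natCast_eq_natCast_iff]
    exact h2
  refine h4.of_dvd ?_
  rw [← IsGalois.card_aut_eq_finrank F K]
  exact orderOf_dvd_natCard _

end C

end Pool.Agent.HM
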